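import Pool.Agent.W221.NS.Stm

/-!
Project MD, part L4: interpolation.
-/

set_option autoImplicit false

open MeasureTheory Set Metric
open scoped ContDiff

namespace Pool.Agent.W790.MD

open H459R3.NS W221.NS

theorem nsq_nonneg (v : V → V) (x : V) : 0 ≤ nsq v x :=
  Finset.sum_nonneg fun _ _ => sq_nonneg _

theorem gsq_nonneg (v : V → V) (x : V) : 0 ≤ gsq v x :=
  Finset.sum_nonneg fun _ _ => Finset.sum_nonneg fun _ _ => sq_nonneg _

theorem nsq_cont {v : V → V} (hv : ContDiff ℝ ∞ v) : Continuous (nsq v) := by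
  have hc := hv.continuous
  unfold nsq
  fun_prop

theorem intOn {f : V → ℝ} (hf : Continuous f) (a : V) (ρ : ℝ) : IntegrableOn f (ball a ρ) :=
  (hf.continuousOn.integrableOn_compact (isCompact_closedBall a ρ)).mono_set
    ball_subset_closedBall

theorem A2_nonneg (a : V) (ρ : ℝ) (v : V → V) : 0 ≤ A2 a ρ v :=
  setIntegral_nonneg measurableSet_ball fun x _ => nsq_nonneg v x

theorem B2_nonneg (a : V) (ρ : ℝ) (v : V → V) : 0 ≤ B2 a ρ v :=
  setIntegral_nonneg measurableSet_ball fun x _ => gsq_nonneg v x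

theorem A2_mono {v : V → V} (hv : ContDiff ℝ ∞ v) (a : V) {ρ ρ' : ℝ} (h : ρ ≤ ρ') :
    A2 a ρ v ≤ A2 a ρ' v := by
  refine setIntegral_mono_set (intOn (nsq_cont hv) a ρ') ?_ ?_
  · exact Filter.Eventually.of_forall fun x => nsq_nonneg v x
  · exact (ball_subset_ball h).eventuallyLE

theorem interp {v : V → V} (hv : ContDiff ℝ ∞ v) (a : V) (ρ l : ℝ) (hl : 0 < l) :
    L4 a ρ v ≤ l / 2 * A2 a ρ v + l⁻¹ / 2 * L6 a ρ v := by
  have hc := nsq_cont hv
  have i1 : IntegrableOn (fun z => l / 2 * nsq v z) (ball a ρ) := intOn (by fun_prop) a ρ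
  have i2 : IntegrableOn (fun z => l⁻¹ / 2 * nsq v z ^ 3) (ball a ρ) := intOn (by fun_prop) a ρ
  have e : l / 2 * A2 a ρ v + l⁻¹ / 2 * L6 a ρ v =
      ∫ z in ball a ρ, (l / 2 * nsq v z + l⁻¹ / 2 * nsq v z ^ 3) := by
    rw [integral_add i1 i2, integral_const_mul, integral_const_mul]
    rfl
  rw [e]
  refine setIntegral_mono (intOn (by fun_prop) a ρ) (i1.add i2) fun z => ?_
  have h0 := nsq_nonneg v z
  have h1 : 0 ≤ l⁻¹ / 2 * (nsq v z * (l - nsq v z) ^ 2) := by positivity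
  have h2 : l⁻¹ / 2 * (nsq v z * (l - nsq v z) ^ 2) =
      l / 2 * nsq v z + l⁻¹ / 2 * nsq v z ^ 3 - nsq v z ^ 2 := by
    field_simp
    ring
  have h3 := h1.trans_eq h2
  show nsq v z ^ 2 ≤ l / 2 * nsq v z + l⁻¹ / 2 * nsq v z ^ 3
  linarith

theorem t_L4 (h : S_SOB) : S_L4 := by
  obtain ⟨C, hC, hS⟩ := h
  refine ⟨√((1 + 64 * C) / 2), by positivity, ?_⟩
  intro v hv a j k hjk
  set A := A2 a (rr j) v with hA
  set B := B2 a (rr j) v with hB
  have hA0 : 0 ≤ A := A2_nonneg _ _ _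
  have hB0 : 0 ≤ B := B2_nonneg _ _ _
  have hrj : 2 * rr (j + 1) = rr j := by unfold rr; rw [pow_succ]; ring
  have hr1 : 0 < rr (j + 1) := by unfold rr; positivity
  have hrk : 0 < rr k := by unfold rr; positivity
  have hrk2 : rr k ^ 2 * 4 ^ k = 1 := by
    unfold rr
    rw [← pow_mul, mul_comm k 2, pow_mul, ← mul_pow]
    norm_num
  have hinv : (rr (j + 1) ^ 2)⁻¹ ≤ 4 * 4 ^ k := by
    have e : (rr (j + 1) ^ 2)⁻¹ = 4 ^ (j + 1) := by
      unfold rr
      rw [← pow_mul, mul_comm (j + 1) 2, pow_mul, ← inv_pow]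
      norm_num
    rw [e, pow_succ, mul_comm]
    have : (4 : ℝ) ^ j ≤ 4 ^ k := pow_le_pow_right₀ (by norm_num) hjk
    linarith
  set Z := 4 ^ k * A + B with hZ
  have hZ0 : 0 ≤ Z := by positivity
  have hsob := hS v hv a (rr (j + 1)) hr1
  rw [hrj] at hsob
  have hy : B + (rr (j + 1) ^ 2)⁻¹ * A ≤ 4 * Z := by
    have := mul_le_mul_of_nonneg_right hinv hA0
    rw [hZ]
    nlinarith
  have hy0 : 0 ≤ B + (rr (j + 1) ^ 2)⁻¹ * A := by positivity
  have hL6 : L6 a (rr (j + 1)) v ≤ 64 * C * Z ^ 3 := by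
    refine hsob.trans ?_
    have := pow_le_pow_left₀ hy0 hy 3
    calc C * (B + (rr (j + 1) ^ 2)⁻¹ * A) ^ 3 ≤ C * (4 * Z) ^ 3 :=
          mul_le_mul_of_nonneg_left this hC.le
      _ = 64 * C * Z ^ 3 := by ring
  have hA2 : A2 a (rr (j + 1)) v ≤ rr k ^ 2 * Z := by
    refine (A2_mono hv a (by linarith : rr (j + 1) ≤ rr j)).trans ?_
    rw [← hA]
    have : A = rr k ^ 2 * 4 ^ k * A := by rw [hrk2, one_mul]
    rw [hZ]
    have h2 : 0 ≤ rr k ^ 2 * B := by positivity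
    linarith [this, h2]
  have key : L4 a (rr (j + 1)) v ≤ (1 + 64 * C) / 2 * rr k * Z ^ 2 := by
    rcases hZ0.eq_or_lt with h0 | hpos
    · have h1 := interp hv a (rr (j + 1)) 1 one_pos
      rw [← h0] at hL6 hA2 ⊢
      norm_num at h1 hL6 hA2 ⊢
      linarith
    · have h1 := interp hv a (rr (j + 1)) (Z / rr k) (by positivity)
      refine h1.trans ?_
      have h2 : Z / rr k / 2 * A2 a (rr (j + 1)) v ≤ Z / rr k / 2 * (rr k ^ 2 * Z) :=
        mul_le_mul_of_nonneg_left hA2 (by positivity)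
      have h3 : (Z / rr k)⁻¹ / 2 * L6 a (rr (j + 1)) v ≤ (Z / rr k)⁻¹ / 2 * (64 * C * Z ^ 3) :=
        mul_le_mul_of_nonneg_left hL6 (by positivity)
      have h4 : Z / rr k / 2 * (rr k ^ 2 * Z) + (Z / rr k)⁻¹ / 2 * (64 * C * Z ^ 3) =
          (1 + 64 * C) / 2 * rr k * Z ^ 2 := by
        field_simp
      linarith
  calc √(L4 a (rr (j + 1)) v) ≤ √((1 + 64 * C) / 2 * rr k * Z ^ 2) := Real.sqrt_le_sqrt key
    _ = √((1 + 64 * C) / 2) * √(rr k) * Z := by
        rw [Real.sqrt_mul (by positivity), Real.sqrt_mul (by positivity), Real.sqrt_sq hZ0]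

end Pool.Agent.W790.MD
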